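import Pool.Agent.Helper73.LF.GoalsB

/-!
# LF-REL: a proper subspace contains only finitely many of the points
-/

set_option autoImplicit false

open Finset

namespace Pool.Agent.Helper12.LF

open Pool.Agent.Helper73.LF

/-- A proper subspace of `k^(m+1)`: the integer vectors in it satisfy an integer relation. -/
theorem relation {r : ℕ} (k : Type) [Field k] [CharZero k] (W : Submodule k (Fin r → k))
    (hW : W ≠ ⊤) : ∃ u : Fin r → ℤ, u ≠ 0 ∧
      ∀ y : Fin r → ℤ, (fun i => ((y i : ℤ) : k)) ∈ W → ∑ i, u i * y i = 0 := by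
  classical
  obtain ⟨f, hf0, hfW⟩ := Submodule.exists_le_ker_of_lt_top W (lt_top_iff_ne_top.2 hW)
  let w : Fin r → k := fun j => f (Pi.single j 1)
  have hw : ∀ y : Fin r → k, f y = ∑ j, y j * w j := by
    intro y
    conv_lhs => rw [← LinearMap.sum_single_apply (fun _ : Fin r => k) y]
    rw [map_sum]
    refine Finset.sum_congr rfl fun j _ => ?_
    have : (LinearMap.single k (fun _ : Fin r => k) j) (y j) = y j • Pi.single j (1 : k) := by
      ext i
      by_cases h : i = j
      · subst h; simp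
      · simp [h]
    change f (Pi.single j (y j)) = _
    have h2 : (Pi.single j (y j) : Fin r → k) = y j • Pi.single j (1 : k) := by
      ext i
      by_cases h : i = j
      · subst h; simp
      · simp [h]
    rw [h2, map_smul, smul_eq_mul]
  obtain ⟨j0, hj0⟩ : ∃ j, w j ≠ 0 := by
    by_contra h
    push Not at h
    apply hf0
    ext j
    have := h j
    simpa [w] using this
  obtain ⟨g, hg⟩ : ∃ g : Module.Dual ℚ k, g (w j0) ≠ 0 := by
    by_contra h
    push Not at h
    exact hj0 ((Module.forall_dual_apply_eq_zero_iff ℚ (w j0)).1 h)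
  -- common denominator
  let dd : ℤ := ∏ j, ((g (w j)).den : ℤ)
  have hdd : dd ≠ 0 := Finset.prod_ne_zero_iff.2 fun j _ => by
    exact_mod_cast (g (w j)).den_ne_zero
  have hden : ∀ j, ∃ u : ℤ, (u : ℚ) = dd * g (w j) := by
    intro j
    refine ⟨(∏ i ∈ univ.erase j, ((g (w i)).den : ℤ)) * (g (w j)).num, ?_⟩
    have h1 : dd = (∏ i ∈ univ.erase j, ((g (w i)).den : ℤ)) * ((g (w j)).den : ℤ) :=
      (Finset.prod_erase_mul _ _ (Finset.mem_univ j)).symm
    rw [h1]
    push_cast
    rw [mul_assoc]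
    congr 1
    rw [mul_comm]
    exact (Rat.mul_den_eq_num (g (w j))).symm
  choose u hu using hden
  refine ⟨u, ?_, ?_⟩
  · intro h0
    have h1 := hu j0
    rw [h0] at h1
    simp only [Pi.zero_apply, Int.cast_zero] at h1
    have h2 : (dd : ℚ) ≠ 0 := by exact_mod_cast hdd
    exact (mul_ne_zero h2 hg) h1.symm
  · intro y hy
    have h1 : f (fun i => ((y i : ℤ) : k)) = 0 := LinearMap.mem_ker.1 (hfW hy)
    rw [hw] at h1
    have h2 : g (∑ j, ((y j : ℤ) : k) * w j) = 0 := by rw [h1, map_zero]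
    rw [map_sum] at h2
    have h3 : ∀ j, g (((y j : ℤ) : k) * w j) = (y j : ℚ) * g (w j) := by
      intro j
      rw [← zsmul_eq_mul, map_zsmul, zsmul_eq_mul]
    simp only [h3] at h2
    have h4 : ((∑ i, u i * y i : ℤ) : ℚ) = 0 := by
      push_cast
      have : ∑ i, (u i : ℚ) * (y i : ℚ) = dd * ∑ i, (y i : ℚ) * g (w i) := by
        rw [Finset.mul_sum]
        refine Finset.sum_congr rfl fun i _ => ?_
        rw [hu i]; ring
      rw [this, h2, mul_zero]
    exact_mod_cast h4

theorem rel : GRel := by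
  intro m x hx k _ _ W hW
  obtain ⟨u, hu, hrel⟩ := relation k W hW
  have hL : (u 0 : ℝ) + ∑ i : Fin m, (u i.succ : ℝ) * x i ≠ 0 := by
    intro h
    obtain ⟨h1, h2⟩ := hx (u 0) (fun i => u i.succ) h
    apply hu
    funext j
    refine Fin.cases h1 (fun i => ?_) j
    exact congrFun h2 i
  set L : ℝ := (u 0 : ℝ) + ∑ i : Fin m, (u i.succ : ℝ) * x i with hLdef
  have hLpos : 0 < |L| := abs_pos.2 hL
  refine (Set.finite_Iic ⌊(∑ i : Fin m, |(u i.succ : ℝ)|) / |L|⌋₊).subset ?_
  intro n hn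
  have hn' : (fun j => (((Fin.cons (n : ℤ) (fun i => round ((n : ℝ) * x i)) : Fin (m + 1) → ℤ) j
      : ℤ) : k)) ∈ W := by
    have : (fun j => (((Fin.cons (n : ℤ) (fun i => round ((n : ℝ) * x i)) : Fin (m + 1) → ℤ) j
      : ℤ) : k)) = pt k x n := by
      funext j
      refine Fin.cases ?_ (fun i => ?_) j
      · rfl
      · rfl
    rw [this]; exact hn
  have h1 := hrel _ hn'
  rw [Fin.sum_univ_succ] at h1
  simp only [Fin.cons_zero, Fin.cons_succ] at h1
  have h2 : (u 0 : ℝ) * (n : ℝ) + ∑ i : Fin m, (u i.succ : ℝ) * (round ((n : ℝ) * x i) : ℝ) = 0 := by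
    exact_mod_cast h1
  have h3 : (n : ℝ) * L = ∑ i : Fin m, (u i.succ : ℝ) * ((n : ℝ) * x i - round ((n : ℝ) * x i)) := by
    have : ∑ i : Fin m, (u i.succ : ℝ) * ((n : ℝ) * x i - round ((n : ℝ) * x i)) =
        (n : ℝ) * ∑ i : Fin m, (u i.succ : ℝ) * x i -
          ∑ i : Fin m, (u i.succ : ℝ) * (round ((n : ℝ) * x i) : ℝ) := by
      rw [Finset.mul_sum, ← Finset.sum_sub_distrib]
      refine Finset.sum_congr rfl fun i _ => ?_
      ring
    rw [this, hLdef]
    linarith
  have h4 : (n : ℝ) * |L| ≤ ∑ i : Fin m, |(u i.succ : ℝ)| := by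
    have h5 : (n : ℝ) * |L| = |(n : ℝ) * L| := by
      rw [abs_mul, Nat.abs_cast]
    rw [h5, h3]
    refine (Finset.abs_sum_le_sum_abs _ _).trans (Finset.sum_le_sum fun i _ => ?_)
    rw [abs_mul]
    have h6 := abs_sub_round ((n : ℝ) * x i)
    nlinarith [abs_nonneg (u i.succ : ℝ)]
  rw [Set.mem_Iic]
  apply Nat.le_floor
  rw [le_div_iff₀ hLpos]
  exact h4

end Pool.Agent.Helper12.LF
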